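import Pool.Agent.H136R4.Stmts

/-! Project H136-GL, task SPLIT. -/

set_option autoImplicit false

namespace Pool.Agent.H607R4.GLSplit

open MvPolynomial Pool.Agent.H136R4

theorem par_le (i : ℕ) : par i ≤ i := by
  unfold par
  split_ifs with h
  · exact Nat.zero_le _
  · have h2 : Nat.pair (Nat.unpair i).1 ((Nat.unpair i).2 - 1) <
        Nat.pair (Nat.unpair i).1 (Nat.unpair i).2 := Nat.pair_lt_pair_right _ (by omega)
    rw [Nat.pair_unpair] at h2
    omega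

theorem X_mem (n i : ℕ) (h : i ≤ n) : (X i : MvPolynomial ℕ ℂ) ∈ PP n :=
  (MvPolynomial.X_mem_supported (R := ℂ)).2 h

theorem splitStmt : SplitStmt := by
  intro a n p hp
  have hp' : p ∈ Algebra.adjoin ℂ ((X : ℕ → MvPolynomial ℕ ℂ) '' Set.Iic (n + 1)) := hp
  clear hp
  induction hp' using Algebra.adjoin_induction with
  | mem x hx =>
    obtain ⟨i, hi, rfl⟩ := hx
    rcases Nat.lt_or_ge n i with h | h
    · have hi' : i = n + 1 := by
        have := Set.mem_Iic.1 hi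
        omega
      subst hi'
      exact ⟨0, zero_mem _, 1, one_mem _, fun v _ => by simp⟩
    · exact ⟨X i, X_mem n i h, 0, zero_mem _, fun v _ => by simp⟩
  | algebraMap r =>
    exact ⟨algebraMap _ _ r, Subalgebra.algebraMap_mem _ r, 0, zero_mem _, fun v _ => by simp⟩
  | add x y _ _ hx hy =>
    obtain ⟨p₀, hp₀, p₁, hp₁, hv⟩ := hx
    obtain ⟨q₀, hq₀, q₁, hq₁, hw⟩ := hy
    refine ⟨p₀ + q₀, add_mem hp₀ hq₀, p₁ + q₁, add_mem hp₁ hq₁, fun v h => ?_⟩
    rw [map_add, map_add, map_add, hv v h, hw v h]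
    ring
  | mul x y _ _ hx hy =>
    obtain ⟨p₀, hp₀, p₁, hp₁, hv⟩ := hx
    obtain ⟨q₀, hq₀, q₁, hq₁, hw⟩ := hy
    refine ⟨p₀ * q₀ + (X (par n) - C (sh a n)) * (p₁ * q₁),
      add_mem (mul_mem hp₀ hq₀) (mul_mem (sub_mem (X_mem n _ (par_le n))
        (Subalgebra.algebraMap_mem _ (sh a n))) (mul_mem hp₁ hq₁)),
      p₀ * q₁ + p₁ * q₀, add_mem (mul_mem hp₀ hq₁) (mul_mem hp₁ hq₀), fun v h => ?_⟩
    have h2 : v (n + 1) ^ 2 = v (par n) - sh a n := h.2 n (Nat.lt_succ_self n)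
    rw [map_mul, hv v h, hw v h]
    simp only [map_add, map_mul, map_sub, eval_X, eval_C]
    rw [← h2]
    ring

end Pool.Agent.H607R4.GLSplit
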