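import Pool.Agent.H753R3.SC.Stmts2

/-! Project H753-SC, TaskC2. -/

set_option autoImplicit false

namespace Pool.Agent.H607R4.SC

open Set Filter Topology

theorem taskC2 (hR : Pool.Agent.H753R3.SC.TaskR) : Pool.Agent.H753R3.SC.TaskC2 := by
  intro P _ _ _ hdcpo hloc hK
  refine ⟨⟨?_⟩, inferInstance⟩
  intro A hirr hcl
  have hlow : IsLowerSet A := IsScott.isLowerSet_of_isClosed hcl
  have hbase : ∀ (V : Set P), IsOpen V → ∀ x ∈ V, ∃ H : Finset P, (∀ h ∈ H, h ∈ V) ∧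
      x ∈ interior {y | ∃ h ∈ H, h ≤ y} := by
    intro V hV x hx
    obtain ⟨K, hK1, hK2, hK3⟩ := hloc.local_compact_nhds x V (hV.mem_nhds hx)
    obtain ⟨H, hH1, hH2⟩ := hK K V hK3 hV hK2
    exact ⟨H, hH1, interior_mono (fun y hy => hH2 y hy) (mem_interior_iff_mem_nhds.2 hK1)⟩
  let ι := {H : Finset P // (A ∩ interior {y | ∃ h ∈ H, h ≤ y}).Nonempty}
  have hne : Nonempty ι := by
    obtain ⟨x0, hx0⟩ := hirr.1
    obtain ⟨H, hH1, hH2⟩ := hbase univ isOpen_univ x0 (mem_univ _)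
    exact ⟨⟨H, ⟨x0, hx0, hH2⟩⟩⟩
  obtain ⟨D, hD1, hD2, hD3, hD4⟩ := hR P ι (fun i => {y | y ∈ i.1 ∧ y ∈ A})
    (fun i => i.1.finite_toSet.subset (fun y hy => hy.1))
    (fun i => by
      obtain ⟨x, hxA, hx⟩ := i.2
      obtain ⟨h, hh, hhx⟩ := interior_subset hx
      exact ⟨h, hh, hlow hhx hxA⟩)
    (fun i j => by
      obtain ⟨x, hxA, hx⟩ := hirr.2 _ _ isOpen_interior isOpen_interior i.2 j.2
      obtain ⟨H, hH1, hH2⟩ := hbase _ (isOpen_interior.inter isOpen_interior) x hx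
      refine ⟨⟨H, ⟨x, hxA, hH2⟩⟩, fun y hy => ?_⟩
      have h1 := hH1 y hy.1
      obtain ⟨a, ha, hay⟩ := interior_subset h1.1
      obtain ⟨b, hb, hby⟩ := interior_subset h1.2
      exact ⟨⟨a, ⟨ha, hlow hay hy.2⟩, hay⟩, ⟨b, ⟨hb, hlow hby hy.2⟩, hby⟩⟩)
  obtain ⟨d, hd⟩ := hdcpo D hD1 hD2
  have hDA : D ⊆ A := fun y hy => by
    obtain ⟨i, hi⟩ := hD3 y hy
    exact hi.2
  have hdA : d ∈ A := by
    have h1 := IsScott.dirSupClosed_of_isClosed hcl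
    exact h1 hDA hD1 hD2 hd
  have hdU : ∀ U : Set P, IsOpen U → ∀ x ∈ A, x ∈ U → d ∈ U := by
    intro U hU x hxA hxU
    obtain ⟨H, hH1, hH2⟩ := hbase U hU x hxU
    obtain ⟨e, heD, he⟩ := hD4 ⟨H, ⟨x, hxA, hH2⟩⟩
    exact IsScott.isUpperSet_of_isOpen (D := univ) hU (hd.1 heD) (hH1 e he.1)
  refine ⟨d, ?_⟩
  show closure {d} = A
  apply Subset.antisymm
  · exact closure_minimal (singleton_subset_iff.2 hdA) hcl
  · intro y hy
    by_contra hcon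
    exact hdU (closure {d})ᶜ isClosed_closure.isOpen_compl y hy hcon
      (subset_closure (mem_singleton d))

end Pool.Agent.H607R4.SC
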