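import Pool.Agent.H12R3.VR.Stmts

/-! Project H12-VR, TaskOdeB. -/

set_option autoImplicit false

namespace Pool.Agent.H607R4.VROdeB

open H12VR

theorem const_of (g g' : ℝ → ℝ) (I : Set ℝ) (hI : IsOpen I) (hc : I.OrdConnected)
    (hg : ∀ x ∈ I, HasDerivAt g (g' x) x) (h0 : ∀ x ∈ I, g' x = 0) {x y : ℝ} (hx : x ∈ I)
    (hy : y ∈ I) : g x = g y := by
  refine hI.is_const_of_deriv_eq_zero (𝕜 := ℝ) hc.isPreconnected
    (fun z hz => (hg z hz).differentiableAt.differentiableWithinAt) (fun z hz => ?_) hx hy
  rw [(hg z hz).deriv, h0 z hz]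
  rfl

theorem taskOdeB : TaskOdeB := by
  intro f I w k v hI hc hne hd hnz h
  obtain ⟨x₀, hx₀⟩ := hne
  rcases eq_or_ne w 0 with rfl | hw
  · -- algebraic case
    rcases eq_or_ne k 0 with rfl | hk
    · exfalso
      have h1 := h x₀ hx₀
      have h2 : v = 0 := by linarith
      simp [h2] at hnz
    · left
      refine ⟨0, -v / k, fun x hx => ?_⟩
      have h1 := h x hx
      field_simp
      linarith
  · rcases eq_or_ne k 0 with rfl | hk
    · left
      have hder : ∀ x ∈ I, HasDerivAt (fun x => f x - v / w * x) (deriv f x - v / w * 1) x :=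
        fun x hx => (hd x hx).hasDerivAt.sub ((hasDerivAt_id x).const_mul (v / w))
      have hz : ∀ x ∈ I, deriv f x - v / w * 1 = 0 := fun x hx => by
        have h1 := h x hx
        field_simp
        linarith
      refine ⟨v / w, f x₀ - v / w * x₀, fun x hx => ?_⟩
      have h1 : f x - v / w * x = f x₀ - v / w * x₀ := const_of _ _ I hI hc hder hz hx hx₀
      linarith
    · have hder : ∀ x ∈ I, HasDerivAt (fun x => (f x + v / k) * Real.exp (-(k / w) * x))
          (deriv f x * Real.exp (-(k / w) * x) +
            (f x + v / k) * (Real.exp (-(k / w) * x) * (-(k / w) * 1))) x := fun x hx =>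
        ((hd x hx).hasDerivAt.add_const (v / k)).mul
          (((hasDerivAt_id x).const_mul (-(k / w))).exp)
      have hz : ∀ x ∈ I, (deriv f x * Real.exp (-(k / w) * x) +
            (f x + v / k) * (Real.exp (-(k / w) * x) * (-(k / w) * 1))) = 0 := fun x hx => by
        have h1 := h x hx
        have h2 : deriv f x = (k * f x + v) / w := by
          field_simp
          linarith
        rw [h2]
        field_simp
        ring
      have hcst : ∀ x ∈ I, (f x + v / k) * Real.exp (-(k / w) * x) =
          (f x₀ + v / k) * Real.exp (-(k / w) * x₀) := fun x hx =>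
        const_of _ _ I hI hc hder hz hx hx₀
      set b := (f x₀ + v / k) * Real.exp (-(k / w) * x₀) with hb
      have hval : ∀ x ∈ I, f x = -(v / k) + b * Real.exp (k / w * x) := fun x hx => by
        have h1 := hcst x hx
        rw [← h1]
        have h2 : Real.exp (-(k / w) * x) * Real.exp (k / w * x) = 1 := by
          rw [← Real.exp_add]
          simp
        rw [mul_assoc, h2]
        ring
      rcases eq_or_ne b 0 with hb0 | hb0
      · left
        refine ⟨0, -(v / k), fun x hx => ?_⟩
        rw [hval x hx, hb0]
        ring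
      · right
        exact ⟨-(v / k), b, k / w, hb0, div_ne_zero hk hw, hval⟩

end Pool.Agent.H607R4.VROdeB
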